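import Pool.Agent.Helper67.LM.Defs

/-! # Project LM (MP_6fb600_gt), packet COV -/

open MeasureTheory Set
open scoped ENNReal
open Pool.Agent.Helper47.AQ Pool.Agent.Helper67.LM

noncomputable section

namespace Pool.Agent.Helper20.LM

variable {ι : Type} [Fintype ι]

theorem bc_sum (x : ι → ℝ) : ∑ o, bc x o = 1 := by
  rw [Fintype.sum_option]
  simp only [bc]
  ring

theorem bc_nonneg {x : ι → ℝ} (hx : x ∈ T ι) (o : Option ι) : 0 ≤ bc x o := by
  cases o with
  | none =>
    have := hx.2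
    simp only [bc]
    linarith
  | some i => exact hx.1 i

/-- separation by an affine function given by its values at the vertices of `T` -/
theorem sep {K : Set (ι → ℝ)} (hc : Convex ℝ K) (hcl : IsClosed K) {x : ι → ℝ} (hx : x ∉ K) :
    ∃ L : Option ι → ℝ, ∑ o, L o * bc x o < 0 ∧ ∀ y ∈ K, 0 < ∑ o, L o * bc y o := by
  classical
  obtain ⟨f, u, h1, h2⟩ := geometric_hahn_banach_point_closed hc hcl hx
  let L : Option ι → ℝ := fun o => o.elim (-u) (fun i => f (fun j => if i = j then 1 else 0) - u)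
  have hf : ∀ y : ι → ℝ, ∑ o, L o * bc y o = f y - u := by
    intro y
    have e1 : f y = ∑ i, y i * f (fun j => if i = j then 1 else 0) := by
      have := LinearMap.pi_apply_eq_sum_univ (f : (ι → ℝ) →ₗ[ℝ] ℝ) y
      simpa [smul_eq_mul] using this
    rw [Fintype.sum_option, e1]
    simp only [L, bc, Option.elim]
    have e2 : ∑ i, (f (fun j => if i = j then 1 else 0) - u) * y i =
        ∑ i, y i * f (fun j => if i = j then 1 else 0) - u * ∑ i, y i := by
      rw [Finset.mul_sum, ← Finset.sum_sub_distrib]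
      refine Finset.sum_congr rfl fun i _ => ?_
      ring
    rw [e2]
    ring
  refine ⟨L, ?_, ?_⟩
  · rw [hf]; linarith
  · intro y hy
    rw [hf]
    have := h2 y hy
    linarith

variable [DecidableEq ι]

theorem bc_co (o : Option ι) (x : ι → ℝ) (o' : Option ι) :
    bc (co o x) o' = bc x (Equiv.swap none o o') := by
  cases o' with
  | some i => rfl
  | none =>
    have h1 : ∑ o', bc x (Equiv.swap none o o') = 1 := by
      rw [Equiv.sum_comp (Equiv.swap none o) (fun o' => bc x o')]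
      exact bc_sum x
    rw [Fintype.sum_option] at h1
    have h2 : bc (co o x) none = 1 - ∑ i, bc x (Equiv.swap none o (some i)) := rfl
    rw [h2]
    linarith

theorem core1 {κ : ℝ} (hκ0 : 0 < κ) (hκ1 : κ ≤ 1 / 4) {M b : Option ι → ℝ} (hM : ∀ o, M o ≤ 1)
    (hb : ∀ o, 0 ≤ b o) (hs : ∑ o, b o = 1) (hpos : 0 < ∑ o, M o * b o) (k : Option ι)
    (hk : 1 - κ ^ 3 ≤ b k) : -(2 * κ ^ 3) ≤ M k := by
  have h1 := Finset.add_sum_erase Finset.univ (fun o => M o * b o) (Finset.mem_univ k)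
  have h2 := Finset.add_sum_erase Finset.univ b (Finset.mem_univ k)
  have h3 : ∑ o ∈ Finset.univ.erase k, M o * b o ≤ ∑ o ∈ Finset.univ.erase k, b o := by
    refine Finset.sum_le_sum fun o _ => ?_
    nlinarith [hM o, hb o]

  have h4 : -(κ ^ 3) < M k * b k := by linarith
  have h5 : κ ^ 3 ≤ 1 / 64 := by
    calc κ ^ 3 ≤ (1 / 4) ^ 3 := pow_le_pow_left₀ hκ0.le hκ1 3
      _ = 1 / 64 := by norm_num
  have h6 : 0 < κ ^ 3 := by positivity
  by_contra hcon
  push Not at hcon
  have h7 : 1 / 2 ≤ b k := by linarith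
  nlinarith

theorem core2 {κ : ℝ} (hκ0 : 0 < κ) {M b : Option ι → ℝ} (hM : ∀ o, -(2 * κ ^ 3) ≤ M o)
    (hb : ∀ o, 0 ≤ b o) (hs : ∑ o, b o = 1) (hneg : ∑ o, M o * b o < 0) (k : Option ι) :
    M k * b k < 2 * κ ^ 3 := by
  have h1 := Finset.add_sum_erase Finset.univ (fun o => M o * b o) (Finset.mem_univ k)
  have h2 := Finset.add_sum_erase Finset.univ b (Finset.mem_univ k)
  have h3 : ∑ o ∈ Finset.univ.erase k, -(2 * κ ^ 3) * b o ≤ ∑ o ∈ Finset.univ.erase k, M o * b o := by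
    refine Finset.sum_le_sum fun o _ => ?_
    exact mul_le_mul_of_nonneg_right (hM o) (hb o)
  rw [← Finset.mul_sum] at h3

  have h4 : 0 < κ ^ 3 := by positivity
  have h5 : ∑ o ∈ Finset.univ.erase k, b o ≤ 1 := by linarith [hb k]
  nlinarith

theorem core3 {κ : ℝ} (hκ0 : 0 < κ) (hκ1 : κ ≤ 1 / 4) {M b : Option ι → ℝ} {j k : Option ι}
    (hjk : k ≠ j) (hMj : M j = 1) (hM : ∀ o, o ≠ j → M o ≤ 2 * κ ^ 2)
    (hb : ∀ o, 0 ≤ b o) (hs : ∑ o, b o = 1) (hpos : 0 < ∑ o, M o * b o) {dd : ℝ} (hd0 : 0 ≤ dd)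
    (hd1 : dd ≤ κ ^ 3) (hj : b j ≤ dd) (hk : 1 - κ ^ 2 ≤ b k) : -(dd + 8 * κ ^ 4) ≤ M k := by
  have hmem : k ∈ Finset.univ.erase j := Finset.mem_erase.2 ⟨hjk, Finset.mem_univ k⟩
  have h1 := Finset.add_sum_erase Finset.univ (fun o => M o * b o) (Finset.mem_univ j)
  have h1' := Finset.add_sum_erase (Finset.univ.erase j) (fun o => M o * b o) hmem
  have h2 := Finset.add_sum_erase Finset.univ b (Finset.mem_univ j)
  have h2' := Finset.add_sum_erase (Finset.univ.erase j) b hmem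

  have h3 : ∑ o ∈ (Finset.univ.erase j).erase k, M o * b o ≤
      ∑ o ∈ (Finset.univ.erase j).erase k, (2 * κ ^ 2) * b o := by
    refine Finset.sum_le_sum fun o ho => ?_
    have ho' : o ≠ j := (Finset.mem_erase.1 (Finset.mem_erase.1 ho).2).1
    exact mul_le_mul_of_nonneg_right (hM o ho') (hb o)
  rw [← Finset.mul_sum] at h3
  have h4 : ∑ o ∈ (Finset.univ.erase j).erase k, b o ≤ κ ^ 2 := by linarith [hb j]
  have h5 : 0 < κ ^ 2 := by positivity
  have h6 : (2 * κ ^ 2) * ∑ o ∈ (Finset.univ.erase j).erase k, b o ≤ 2 * κ ^ 4 := by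
    have : (2 * κ ^ 2) * ∑ o ∈ (Finset.univ.erase j).erase k, b o ≤ (2 * κ ^ 2) * κ ^ 2 :=
      mul_le_mul_of_nonneg_left h4 (by positivity)
    linarith [this, show (2 * κ ^ 2) * κ ^ 2 = 2 * κ ^ 4 by ring]
  have h7 : -(dd + 2 * κ ^ 4) < M k * b k := by
    rw [hMj] at h1
    linarith
  by_contra hcon
  push Not at hcon
  have hκ2 : κ ^ 2 ≤ 1 / 16 := by
    calc κ ^ 2 ≤ (1 / 4) ^ 2 := pow_le_pow_left₀ hκ0.le hκ1 2
      _ = 1 / 16 := by norm_num
  have h8 : M k * b k ≤ -(dd + 8 * κ ^ 4) * (1 - κ ^ 2) := by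
    have hneg : M k ≤ 0 := by
      have : 0 ≤ dd + 8 * κ ^ 4 := by positivity
      linarith
    calc M k * b k ≤ M k * (1 - κ ^ 2) := mul_le_mul_of_nonpos_left hk hneg
      _ ≤ -(dd + 8 * κ ^ 4) * (1 - κ ^ 2) :=
        mul_le_mul_of_nonneg_right hcon.le (by linarith)
  have h9 : κ ^ 2 * dd ≤ κ ^ 4 / 4 := by
    calc κ ^ 2 * dd ≤ κ ^ 2 * κ ^ 3 := mul_le_mul_of_nonneg_left hd1 (by positivity)
      _ = κ ^ 4 * κ := by ring
      _ ≤ κ ^ 4 * (1 / 4) := mul_le_mul_of_nonneg_left hκ1 (by positivity)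
      _ = κ ^ 4 / 4 := by ring
  have h10 : κ ^ 4 * κ ^ 2 ≤ κ ^ 4 * (1 / 16) := mul_le_mul_of_nonneg_left hκ2 (by positivity)
  have h11 : 0 < κ ^ 4 := by positivity
  have h12 : -(dd + 8 * κ ^ 4) * (1 - κ ^ 2) =
      -dd - 8 * κ ^ 4 + κ ^ 2 * dd + 8 * (κ ^ 4 * κ ^ 2) := by ring
  rw [h12] at h8
  linarith

/-- packet COV -/
theorem cov [Nonempty ι] {K : Set (ι → ℝ)} (hK : IsBody K) (hT : K ⊆ T ι)
    (hc : ∀ o : Option ι, co o (fun _ => 1 / (Fintype.card ι : ℝ)) ∈ K) (κ : ℝ) (hκ0 : 0 < κ)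
    (hκ1 : κ ≤ 1 / 4) (hp : ∀ k : Option ι, ∃ p ∈ K, 1 - κ ^ 3 ≤ bc p k)
    (d : Option ι → Option ι → ℝ) (hd : ∀ k j, 0 ≤ d k j ∧ d k j ≤ κ ^ 3)
    (hdp : ∀ k j, k ≠ j → ∃ p ∈ K, 1 - κ ^ 2 ≤ bc p k ∧ bc p j ≤ d k j) :
    T ι \ K ⊆ (⋃ j : Option ι, {x | x ∈ T ι ∧
        co j x ∈ RR (fun i => d (Equiv.swap none j (some i)) j + 8 * κ ^ 4)}) ∪
      ⋃ j : Option ι, ⋃ k : Option ι, {x | k ≠ j ∧ x ∈ T ι ∧ bc x j < 2 * κ ^ 3 ∧ bc x k < κ} := by
  rintro x ⟨hxT, hxK⟩
  obtain ⟨L, hLx, hLK⟩ := sep hK.conv hK.comp.isClosed hxK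
  obtain ⟨j, hj⟩ := Finite.exists_max L
  have hLj : 0 < L j := by
    obtain ⟨p, hpK, -⟩ := hp none
    have h1 := hLK p hpK
    have h2 : ∑ o, L o * bc p o ≤ ∑ o, L j * bc p o :=
      Finset.sum_le_sum fun o _ => mul_le_mul_of_nonneg_right (hj o) (bc_nonneg (hT hpK) o)
    rw [← Finset.mul_sum, bc_sum, mul_one] at h2
    linarith
  set M : Option ι → ℝ := fun o => L o / L j with hMdef
  have hscale : ∀ b : Option ι → ℝ, ∑ o, M o * b o = (∑ o, L o * b o) / L j := by
    intro b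
    rw [Finset.sum_div]
    refine Finset.sum_congr rfl fun o _ => ?_
    simp only [hMdef]
    ring
  have hMx : ∑ o, M o * bc x o < 0 := by
    rw [hscale]
    exact div_neg_of_neg_of_pos hLx hLj
  have hMK : ∀ y ∈ K, 0 < ∑ o, M o * bc y o := by
    intro y hy
    rw [hscale]
    exact div_pos (hLK y hy) hLj
  have hMj : M j = 1 := div_self hLj.ne'
  have hM1 : ∀ o, M o ≤ 1 := fun o => (div_le_one hLj).2 (hj o)
  have hMlow : ∀ k, -(2 * κ ^ 3) ≤ M k := by
    intro k
    obtain ⟨p, hpK, hpk⟩ := hp k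
    exact core1 hκ0 hκ1 hM1 (bc_nonneg (hT hpK)) (bc_sum p) (hMK p hpK) k hpk
  have hup : ∀ k, M k * bc x k < 2 * κ ^ 3 :=
    core2 hκ0 hMlow (bc_nonneg hxT) (bc_sum x) hMx
  have hxj : bc x j < 2 * κ ^ 3 := by
    have := hup j
    rwa [hMj, one_mul] at this
  by_cases hsmall : ∃ k, k ≠ j ∧ bc x k < κ
  · obtain ⟨k, hkj, hk⟩ := hsmall
    right
    simp only [mem_iUnion]
    exact ⟨j, k, hkj, hxT, hxj, hk⟩
  · push Not at hsmall
    left
    simp only [mem_iUnion]
    refine ⟨j, hxT, ?_⟩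
    have hMup : ∀ k, k ≠ j → M k ≤ 2 * κ ^ 2 := by
      intro k hk
      by_contra hcon
      push Not at hcon
      have h1 := hup k
      have h2 := hsmall k hk
      have h3 : 0 < κ ^ 2 := by positivity
      have h4 : 2 * κ ^ 2 * κ ≤ M k * bc x k := by
        apply mul_le_mul hcon.le h2 hκ0.le
        linarith
      nlinarith
    have hMd : ∀ k, k ≠ j → -(d k j + 8 * κ ^ 4) ≤ M k := by
      intro k hk
      obtain ⟨p, hpK, hpk, hpj⟩ := hdp k j hk
      exact core3 hκ0 hκ1 hk hMj hMup (bc_nonneg (hT hpK)) (bc_sum p) (hMK p hpK) (hd k j).1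
        (hd k j).2 hpj hpk
    have hσ : ∀ i : ι, Equiv.swap none j (some i) ≠ j := by
      intro i h
      have h1 : Equiv.swap none j (some i) = Equiv.swap none j none := by
        rw [h, Equiv.swap_apply_left]
      exact absurd ((Equiv.swap none j).injective h1) (by simp)
    have hre : ∀ b : Option ι → ℝ, ∑ o, M o * b o =
        b j + ∑ i, M (Equiv.swap none j (some i)) * b (Equiv.swap none j (some i)) := by
      intro b
      rw [← Equiv.sum_comp (Equiv.swap none j) (fun o => M o * b o), Fintype.sum_option,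
        Equiv.swap_apply_left, hMj, one_mul]
    -- the centroid
    have hn : (0 : ℝ) < Fintype.card ι := by exact_mod_cast Fintype.card_pos
    have hcen : 0 < ∑ i, M (Equiv.swap none j (some i)) := by
      have h1 := hMK _ (hc j)
      rw [hre] at h1
      have h2 : bc (co j (fun _ => 1 / (Fintype.card ι : ℝ))) j = 0 := by
        rw [bc_co, Equiv.swap_apply_right]
        simp only [bc, Finset.sum_const, Finset.card_univ, nsmul_eq_mul]
        field_simp
        ring
      have h3 : ∀ i : ι, bc (co j (fun _ => 1 / (Fintype.card ι : ℝ)))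
          (Equiv.swap none j (some i)) = 1 / (Fintype.card ι : ℝ) := by
        intro i
        rw [bc_co, Equiv.swap_apply_self]
        rfl
      rw [h2, zero_add] at h1
      have h4 : ∑ i, M (Equiv.swap none j (some i)) *
          bc (co j (fun _ => 1 / (Fintype.card ι : ℝ))) (Equiv.swap none j (some i)) =
          (∑ i, M (Equiv.swap none j (some i))) * (1 / (Fintype.card ι : ℝ)) := by
        rw [Finset.sum_mul]
        refine Finset.sum_congr rfl fun i _ => ?_
        rw [h3]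
      rw [h4] at h1
      by_contra hcon
      push Not at hcon
      have h5 : (∑ i, M (Equiv.swap none j (some i))) * (1 / (Fintype.card ι : ℝ)) ≤ 0 :=
        mul_nonpos_of_nonpos_of_nonneg hcon (by positivity)
      linarith
    have hcoi : ∀ i, co j x i = bc x (Equiv.swap none j (some i)) := fun i => rfl
    have hco0 : ∀ i, 0 ≤ co j x i := fun i => bc_nonneg hxT _
    have hcos : 1 - ∑ i, co j x i = bc x j := by
      have := bc_co j x none
      rw [Equiv.swap_apply_left] at this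
      exact this
    refine ⟨⟨hco0, ?_⟩, ?_⟩
    · have := bc_nonneg hxT j
      linarith
    · rw [hcos]
      set m := ⨅ i', co j x i' with hm
      have hmle : ∀ i, m ≤ co j x i := fun i => ciInf_le (Finite.bddBelow_range _) i
      have hm0 : 0 ≤ m := le_ciInf hco0
      have h1 := hMx
      rw [hre] at h1
      have h2 : ∑ i, M (Equiv.swap none j (some i)) * bc x (Equiv.swap none j (some i)) =
          ∑ i, M (Equiv.swap none j (some i)) * (co j x i - m) +
            m * ∑ i, M (Equiv.swap none j (some i)) := by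
        rw [Finset.mul_sum, ← Finset.sum_add_distrib]
        refine Finset.sum_congr rfl fun i _ => ?_
        rw [hcoi]
        ring
      have h3 : -∑ i, (d (Equiv.swap none j (some i)) j + 8 * κ ^ 4) * (co j x i - m) ≤
          ∑ i, M (Equiv.swap none j (some i)) * (co j x i - m) := by
        rw [← Finset.sum_neg_distrib]
        refine Finset.sum_le_sum fun i _ => ?_
        have h4 := hMd _ (hσ i)
        have h5 : 0 ≤ co j x i - m := by linarith [hmle i]
        nlinarith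
      have h6 : 0 ≤ m * ∑ i, M (Equiv.swap none j (some i)) := mul_nonneg hm0 hcen.le
      rw [h2] at h1
      linarith

end Pool.Agent.Helper20.LM
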